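import Mathlib

/-!
A skew `t`-family of strings for the Hamming distance has length at most `2 ^ (t + 1)`, over every
alphabet; this is attained.
-/

set_option autoImplicit false

namespace Pool.Agent.Results.MP_41e757_co.ExactValue

open Finset AddMonoidAlgebra

/-- `a, b` is a skew `t`-family of length `m` of strings of length `n` over the alphabet `X`. -/
def IsSkewFamily {X : Type*} [DecidableEq X] (t : ℕ) {m n : ℕ} (a b : Fin m → Fin n → X) : Prop :=
  (∀ i, t + 1 ≤ hammingDist (a i) (b i)) ∧ ∀ i j, i < j → hammingDist (a i) (b j) ≤ t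

/-- the group `(ℤ/2)^(t+1)` -/
abbrev Grp (t : ℕ) := Fin (t + 1) → ZMod 2

/-- the element `1 + g_r` of the group algebra -/
noncomputable def eps (R : Type*) [CommRing R] {t : ℕ} (r : Fin (t + 1)) :
    AddMonoidAlgebra R (Grp t) :=
  1 + single (Pi.single r 1) 1

/-- the linear form `∑ α_r (1 + g_r)` -/
noncomputable def ell {R : Type*} [CommRing R] {t : ℕ} (α : Fin (t + 1) → R) :
    AddMonoidAlgebra R (Grp t) :=
  ∑ r, α r • eps R r

lemma eps_sq {R : Type*} [CommRing R] [CharP R 2] {t : ℕ} (r : Fin (t + 1)) :
    eps R r * eps R r = 0 := by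
  have h1 : (single (Pi.single r 1) 1 : AddMonoidAlgebra R (Grp t)) * single (Pi.single r 1) 1 = 1 := by
    rw [single_mul_single, ← Pi.single_add, one_mul]
    have : (1 : ZMod 2) + 1 = 0 := by decide
    rw [this, Pi.single_zero]
    rfl
  have h2 : (2 : AddMonoidAlgebra R (Grp t)) = 0 := by
    have : (algebraMap R (AddMonoidAlgebra R (Grp t))) 2 = 2 := map_ofNat _ 2
    have h0 : (2 : R) = 0 := CharTwo.two_eq_zero
    rw [← this, h0, map_zero]
  unfold eps
  calc (1 + (single (Pi.single r 1) 1 : AddMonoidAlgebra R (Grp t))) * (1 + single (Pi.single r 1) 1)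
      = 1 + 2 * single (Pi.single r 1) 1 + single (Pi.single r 1) 1 * single (Pi.single r 1) 1 := by
        ring
    _ = 2 + 2 * single (Pi.single r 1) 1 := by rw [h1]; ring
    _ = 0 := by rw [h2]; ring

lemma charP_alg (R : Type*) [CommRing R] [CharP R 2] [Nontrivial R] (t : ℕ) :
    CharP (AddMonoidAlgebra R (Grp t)) 2 :=
  charP_of_injective_algebraMap (FaithfulSMul.algebraMap_injective R _) 2

lemma ell_sq {R : Type*} [CommRing R] [CharP R 2] [Nontrivial R] {t : ℕ} (α : Fin (t + 1) → R) :
    ell α * ell α = 0 := by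
  have := charP_alg R t
  unfold ell
  rw [CharTwo.sum_mul_self]
  apply Finset.sum_eq_zero
  intro r _
  rw [smul_mul_smul_comm, eps_sq, smul_zero]

/-- the vector attached to the string `z` -/
noncomputable def Gv {R : Type*} [CommRing R] {t n : ℕ} (α : Fin n → Fin (t + 1) → R)
    (z : Fin n → R) : AddMonoidAlgebra R (Grp t) :=
  ∏ k, (1 + z k • ell (α k))

lemma Gv_mul {R : Type*} [CommRing R] [CharP R 2] [Nontrivial R] {t n : ℕ}
    (α : Fin n → Fin (t + 1) → R) (x y : Fin n → R) :
    Gv α x * Gv α y = Gv α (x + y) := by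
  unfold Gv
  rw [← Finset.prod_mul_distrib]
  apply Finset.prod_congr rfl
  intro k _
  have h := ell_sq (α k)
  rw [mul_add, add_mul, add_mul, smul_mul_smul_comm, h, smul_zero, Pi.add_apply, add_smul]
  ring

/-- all group elements of the support have at most `d` nonzero coordinates -/
def LowWt {R : Type*} [CommRing R] {t : ℕ} (d : ℕ) (x : AddMonoidAlgebra R (Grp t)) : Prop :=
  ∀ g, x.coeff g ≠ 0 → (Finset.univ.filter (fun r => g r ≠ 0)).card ≤ d

lemma lowWt_mul {R : Type*} [CommRing R] {t d e : ℕ} {x y : AddMonoidAlgebra R (Grp t)}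
    (hx : LowWt d x) (hy : LowWt e y) : LowWt (d + e) (x * y) := by
  classical
  intro g hg
  have h1 := AddMonoidAlgebra.support_coeff_mul_subset x y (Finsupp.mem_support_iff.2 hg)
  obtain ⟨u, hu, v, hv, rfl⟩ := Finset.mem_add.1 h1
  refine le_trans ?_ (add_le_add (hx u (Finsupp.mem_support_iff.1 hu))
    (hy v (Finsupp.mem_support_iff.1 hv)))
  refine le_trans (Finset.card_le_card ?_) (Finset.card_union_le _ _)
  intro r hr
  simp only [mem_filter, mem_univ, true_and, mem_union, Pi.add_apply] at hr ⊢
  by_contra hcon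
  push Not at hcon
  apply hr
  rw [hcon.1, hcon.2, add_zero]

lemma lowWt_add {R : Type*} [CommRing R] {t d : ℕ} {x y : AddMonoidAlgebra R (Grp t)}
    (hx : LowWt d x) (hy : LowWt d y) : LowWt d (x + y) := by
  intro g hg
  by_cases h : x.coeff g = 0
  · apply hy
    intro h2
    apply hg
    rw [coeff_add, Finsupp.add_apply, h, h2, add_zero]
  · exact hx g h

lemma lowWt_one {R : Type*} [CommRing R] {t d : ℕ} :
    LowWt d (1 : AddMonoidAlgebra R (Grp t)) := by
  intro g hg
  have : g = 0 := by
    by_contra hne
    apply hg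
    rw [one_def, coeff_single, Finsupp.single_eq_of_ne hne]
  subst this
  simp

lemma lowWt_smul {R : Type*} [CommRing R] {t d : ℕ} {x : AddMonoidAlgebra R (Grp t)} (c : R)
    (hx : LowWt d x) : LowWt d (c • x) := by
  intro g hg
  apply hx
  intro h
  apply hg
  rw [coeff_smul_apply, h, smul_zero]

lemma lowWt_eps {R : Type*} [CommRing R] {t : ℕ} (r : Fin (t + 1)) : LowWt 1 (eps R r) := by
  apply lowWt_add lowWt_one
  intro g hg
  have : g = Pi.single r 1 := by
    by_contra hne
    apply hg
    rw [coeff_single, Finsupp.single_eq_of_ne hne]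
  subst this
  refine (Finset.card_le_card (t := {r}) ?_).trans (by simp)
  intro s hs
  simp only [mem_filter, mem_univ, true_and, mem_singleton] at hs ⊢
  by_contra hne
  exact hs (Pi.single_eq_of_ne hne _)

lemma lowWt_ell {R : Type*} [CommRing R] {t : ℕ} (α : Fin (t + 1) → R) : LowWt 1 (ell α) := by
  classical
  unfold ell
  induction (Finset.univ : Finset (Fin (t + 1))) using Finset.induction_on with
  | empty =>
    rw [Finset.sum_empty]
    intro g hg
    exact absurd rfl hg
  | insert r s hr ih =>
    rw [Finset.sum_insert hr]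
    exact lowWt_add (lowWt_smul _ (lowWt_eps r)) ih

lemma lowWt_prod {R : Type*} [CommRing R] {t n : ℕ} (α : Fin n → Fin (t + 1) → R)
    (z : Fin n → R) (s : Finset (Fin n)) : LowWt s.card (∏ k ∈ s, (1 + z k • ell (α k))) := by
  classical
  induction s using Finset.induction_on with
  | empty =>
    rw [Finset.prod_empty]
    exact lowWt_one
  | insert k s hk ih =>
    rw [Finset.prod_insert hk, Finset.card_insert_of_notMem hk, add_comm]
    exact lowWt_mul (lowWt_add lowWt_one (lowWt_smul _ (lowWt_ell _))) ih

lemma Gv_eq_prod {R : Type*} [CommRing R] {t n : ℕ} (α : Fin n → Fin (t + 1) → R)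
    (z : Fin n → R) (s : Finset (Fin n)) (hs : ∀ k, z k ≠ 0 → k ∈ s) :
    Gv α z = ∏ k ∈ s, (1 + z k • ell (α k)) := by
  unfold Gv
  symm
  apply Finset.prod_subset (Finset.subset_univ s)
  intro k _ hk
  have : z k = 0 := by
    by_contra h
    exact hk (hs k h)
  rw [this, zero_smul, add_zero]

/-- few nonzero coordinates: the coefficient of the all-ones group element vanishes -/
lemma top_eq_zero {R : Type*} [CommRing R] {t n : ℕ} (α : Fin n → Fin (t + 1) → R)
    (z : Fin n → R) (s : Finset (Fin n)) (hs : ∀ k, z k ≠ 0 → k ∈ s) (hc : s.card ≤ t) :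
    (Gv α z).coeff 1 = 0 := by
  by_contra h
  rw [Gv_eq_prod α z s hs] at h
  have := lowWt_prod α z s 1 h
  have h2 : (Finset.univ.filter (fun r : Fin (t + 1) => (1 : Grp t) r ≠ 0)).card = t + 1 := by
    rw [Finset.filter_true_of_mem]
    · simp
    · intro r _
      simp
  omega

lemma top_sum {R : Type*} [CommRing R] {t : ℕ}
    (f : Finset (Fin (t + 1)) → AddMonoidAlgebra R (Grp t)) (h : ∀ S, LowWt S.card (f S)) :
    (∑ S ∈ (Finset.univ : Finset (Fin (t + 1))).powerset, f S).coeff 1 =
      (f Finset.univ).coeff 1 := by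
  rw [coeff_sum, Finsupp.finsetSum_apply, Finset.sum_eq_single Finset.univ]
  · intro S _ hS
    by_contra hne
    have h1 := h S 1 hne
    have h2 : (Finset.univ.filter (fun r : Fin (t + 1) => (1 : Grp t) r ≠ 0)).card = t + 1 := by
      rw [Finset.filter_true_of_mem]
      · simp
      · intro r _
        simp
    have h3 : S.card < t + 1 := by
      have := Finset.card_lt_univ_of_notMem (s := S) (x := (Classical.choose
        (not_forall.1 (fun hh => hS (Finset.eq_univ_iff_forall.2 hh)))))
        (Classical.choose_spec (not_forall.1 (fun hh => hS (Finset.eq_univ_iff_forall.2 hh))))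
      rwa [Fintype.card_fin] at this
    omega
  · intro hn
    exact absurd (Finset.mem_powerset.2 (Finset.subset_univ _)) hn

lemma lowWt_prod_eps {R : Type*} [CommRing R] {t : ℕ} (c : Fin (t + 1) → R)
    (s : Finset (Fin (t + 1))) : LowWt s.card (∏ r ∈ s, (c r • eps R r)) := by
  classical
  induction s using Finset.induction_on with
  | empty =>
    rw [Finset.prod_empty]
    exact lowWt_one
  | insert k s hk ih =>
    rw [Finset.prod_insert hk, Finset.card_insert_of_notMem hk, add_comm]
    exact lowWt_mul (lowWt_smul _ (lowWt_eps _)) ih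

lemma lowWt_single {R : Type*} [CommRing R] {t : ℕ} (r : Fin (t + 1)) :
    LowWt 1 (single (Pi.single r 1) 1 : AddMonoidAlgebra R (Grp t)) := by
  intro g hg
  have : g = Pi.single r 1 := by
    by_contra hne
    apply hg
    rw [coeff_single, Finsupp.single_eq_of_ne hne]
  subst this
  refine (Finset.card_le_card (t := {r}) ?_).trans (by simp)
  intro s hs
  simp only [mem_filter, mem_univ, true_and, mem_singleton] at hs ⊢
  by_contra hne
  exact hs (Pi.single_eq_of_ne hne _)

lemma lowWt_prod_single {R : Type*} [CommRing R] {t : ℕ} (s : Finset (Fin (t + 1))) :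
    LowWt s.card (∏ r ∈ s, (single (Pi.single r 1) 1 : AddMonoidAlgebra R (Grp t))) := by
  classical
  induction s using Finset.induction_on with
  | empty =>
    rw [Finset.prod_empty]
    exact lowWt_one
  | insert k s hk ih =>
    rw [Finset.prod_insert hk, Finset.card_insert_of_notMem hk, add_comm]
    exact lowWt_mul (lowWt_single k) ih

lemma top_prod_eps {R : Type*} [CommRing R] {t : ℕ} :
    (∏ r : Fin (t + 1), eps R r).coeff 1 = 1 := by
  unfold eps
  rw [Finset.prod_one_add, top_sum _ (fun S => lowWt_prod_single S)]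
  have h : ∀ s : Finset (Fin (t + 1)),
      (∏ r ∈ s, (single (Pi.single r 1) 1 : AddMonoidAlgebra R (Grp t))) =
        single (∑ r ∈ s, Pi.single r 1) 1 := by
    classical
    intro s
    induction s using Finset.induction_on with
    | empty => rfl
    | insert k s hk ih =>
      rw [Finset.prod_insert hk, Finset.sum_insert hk, ih, single_mul_single, one_mul]
  rw [h, coeff_single]
  have h1 : (∑ r : Fin (t + 1), (Pi.single r 1 : Grp t)) = 1 := by
    have := Finset.univ_sum_single (1 : Grp t)
    simpa using this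
  rw [h1, Finsupp.single_eq_same]

lemma top_prod {R : Type*} [CommRing R] {t : ℕ} (c : Fin (t + 1) → R) :
    (∏ r : Fin (t + 1), (1 + c r • eps R r)).coeff 1 = ∏ r, c r := by
  rw [Finset.prod_one_add, top_sum _ (fun S => lowWt_prod_eps c S), Finset.prod_smul,
    coeff_smul_apply, top_prod_eps, smul_eq_mul, mul_one]

lemma map_Gv {R S : Type*} [CommRing R] [CommRing S] {t n : ℕ} (φ : R →+* S)
    (α : Fin n → Fin (t + 1) → R) (z : Fin n → R) :
    mapRingHom (Grp t) φ (Gv α z) = Gv (fun k r => φ (α k r)) (fun k => φ (z k)) := by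
  have hsm : ∀ (c : R) (x : AddMonoidAlgebra R (Grp t)),
      mapRingHom (Grp t) φ (c • x) = φ c • mapRingHom (Grp t) φ x := by
    intro c x
    ext g
    rw [coeff_mapRingHom, coeff_smul_apply, coeff_smul_apply, coeff_mapRingHom, smul_eq_mul,
      smul_eq_mul, map_mul]
  have heps : ∀ r : Fin (t + 1), mapRingHom (Grp t) φ (eps R r) = eps S r := by
    intro r
    unfold eps
    rw [map_add, map_one]
    congr 1
    ext g
    rw [coeff_mapRingHom, coeff_single, coeff_single, Finsupp.single_apply, Finsupp.single_apply]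
    split_ifs
    · exact map_one φ
    · exact map_zero φ
  unfold Gv ell
  rw [map_prod]
  apply Finset.prod_congr rfl
  intro k _
  rw [map_add, map_one, hsm, map_sum]
  simp only [hsm, heps]

/-- many nonzero coordinates: the coefficient of the all-ones group element is nonzero after a
specialisation -/
lemma top_ne_zero {R S : Type*} [CommRing R] [CommRing S] [IsDomain S] {t n : ℕ} (φ : R →+* S)
    (α : Fin n → Fin (t + 1) → R) (z : Fin n → R) (κ : Fin (t + 1) → Fin n)
    (hκ : Function.Injective κ) (hz : ∀ r, φ (z (κ r)) ≠ 0)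
    (hα : ∀ k r, φ (α k r) = if k = κ r then 1 else 0) :
    (Gv α z).coeff 1 ≠ 0 := by
  classical
  intro h0
  have h1 : (mapRingHom (Grp t) φ (Gv α z)).coeff 1 = 0 := by
    rw [coeff_mapRingHom, h0, map_zero]
  rw [map_Gv] at h1
  have h2 : Gv (fun k r => φ (α k r)) (fun k => φ (z k)) =
      ∏ r : Fin (t + 1), (1 + φ (z (κ r)) • eps S r) := by
    unfold Gv
    have hell : ∀ k, k ∉ Finset.univ.image κ → ell (fun r => φ (α k r)) = 0 := by
      intro k hk
      unfold ell
      apply Finset.sum_eq_zero
      intro r _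
      beta_reduce
      rw [hα, if_neg, zero_smul]
      rintro rfl
      exact hk (Finset.mem_image_of_mem κ (mem_univ r))
    have hell2 : ∀ r, ell (fun r' => φ (α (κ r) r')) = eps S r := by
      intro r
      unfold ell
      rw [Finset.sum_eq_single r]
      · beta_reduce
        rw [hα, if_pos rfl, one_smul]
      · intro r' _ hr'
        beta_reduce
        rw [hα, if_neg, zero_smul]
        intro h
        exact hr' (hκ h).symm
      · intro h
        exact absurd (mem_univ r) h
    rw [← Finset.prod_subset (Finset.subset_univ (Finset.univ.image κ))]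
    · rw [Finset.prod_image (fun a _ b _ h => hκ h)]
      apply Finset.prod_congr rfl
      intro r _
      rw [hell2]
    · intro k _ hk
      rw [hell k hk, smul_zero, add_zero]
  rw [h2, top_prod] at h1
  exact (Finset.prod_ne_zero_iff.2 (fun r _ => hz r)) h1

/-- the upper bound -/
lemma upper {X : Type*} [DecidableEq X] {t m n : ℕ} {a b : Fin m → Fin n → X}
    (h : IsSkewFamily t a b) : m ≤ 2 ^ (t + 1) := by
  classical
  let R := MvPolynomial (X ⊕ (Fin n × Fin (t + 1))) (ZMod 2)
  have hchar : CharP R 2 := inferInstance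
  let α : Fin n → Fin (t + 1) → R := fun k r => MvPolynomial.X (Sum.inr (k, r))
  let za : Fin m → Fin n → R := fun i k => MvPolynomial.X (Sum.inl (a i k))
  let zb : Fin m → Fin n → R := fun i k => MvPolynomial.X (Sum.inl (b i k))
  have hzero : ∀ i j k, za i k + zb j k ≠ 0 ↔ a i k ≠ b j k := by
    intro i j k
    rw [not_iff_not, CharTwo.add_eq_zero]
    constructor
    · intro hh
      exact Sum.inl_injective (MvPolynomial.X_injective hh)
    · intro hh
      simp only [za, zb, hh]
  have hdist : ∀ i j, (Finset.univ.filter (fun k => a i k ≠ b j k)).card =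
      hammingDist (a i) (b j) := fun i j => rfl
  let v : Fin m → AddMonoidAlgebra R (Grp t) := fun i => Gv α (za i)
  let w : Fin m → AddMonoidAlgebra R (Grp t) := fun i => Gv α (zb i)
  have hM0 : ∀ i j, i < j → (v i * w j).coeff 1 = 0 := by
    intro i j hij
    simp only [v, w]
    rw [Gv_mul]
    refine top_eq_zero α _ (Finset.univ.filter (fun k => a i k ≠ b j k)) ?_ (h.2 i j hij)
    intro k hk
    rw [Pi.add_apply, hzero] at hk
    exact Finset.mem_filter.2 ⟨mem_univ _, hk⟩
  have hM1 : ∀ i, (v i * w i).coeff 1 ≠ 0 := by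
    intro i
    simp only [v, w]
    rw [Gv_mul]
    obtain ⟨T, hT, hTc⟩ := Finset.exists_subset_card_eq (h.1 i)
    let κ : Fin (t + 1) → Fin n := fun r => T.orderEmbOfFin hTc r
    have hκ : Function.Injective κ := (T.orderEmbOfFin hTc).injective
    have hκm : ∀ r, a i (κ r) ≠ b i (κ r) := by
      intro r
      exact (Finset.mem_filter.1 (hT (T.orderEmbOfFin_mem hTc r))).2
    let ev : X ⊕ (Fin n × Fin (t + 1)) → R := Sum.elim
      (fun x => (MvPolynomial.X (Sum.inl x) : R))
      (fun p : Fin n × Fin (t + 1) => if p.1 = κ p.2 then (1 : R) else 0)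
    let φ : R →+* R := (MvPolynomial.aeval (R := ZMod 2) ev).toRingHom
    have hX : ∀ s, φ (MvPolynomial.X s) = ev s := fun s => MvPolynomial.aeval_X ev s
    refine top_ne_zero φ α _ κ hκ ?_ ?_
    · intro r
      have h1 : φ ((za i + zb i) (κ r)) = za i (κ r) + zb i (κ r) := by
        rw [Pi.add_apply, map_add]
        simp only [za, zb]
        rw [hX, hX]
        rfl
      rw [h1]
      exact (hzero i i (κ r)).2 (hκm r)
    · intro k r
      simp only [α]
      rw [hX]
      rfl
  have hlin : LinearIndependent R v := by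
    rw [Fintype.linearIndependent_iff]
    intro g hg
    by_contra hcon
    push Not at hcon
    have hne : (Finset.univ.filter (fun i => g i ≠ 0)).Nonempty := by
      obtain ⟨i, hi⟩ := hcon
      exact ⟨i, Finset.mem_filter.2 ⟨mem_univ _, hi⟩⟩
    obtain ⟨j, hj, hmax⟩ := Finset.exists_max_image _ (fun i : Fin m => i) hne
    have hj0 : g j ≠ 0 := (Finset.mem_filter.1 hj).2
    have h1 : ((∑ i, g i • v i) * w j).coeff 1 = g j * (v j * w j).coeff 1 := by
      rw [Finset.sum_mul, coeff_sum, Finsupp.finsetSum_apply, Finset.sum_eq_single j]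
      · rw [smul_mul_assoc, coeff_smul_apply, smul_eq_mul]
      · intro i _ hij
        rw [smul_mul_assoc, coeff_smul_apply, smul_eq_mul]
        rcases lt_or_gt_of_ne hij with hlt | hgt
        · rw [hM0 i j hlt, mul_zero]
        · have : g i = 0 := by
            by_contra hgi
            exact absurd (hmax i (Finset.mem_filter.2 ⟨mem_univ _, hgi⟩)) (not_le.2 hgt)
          rw [this, zero_mul]
      · intro hh
        exact absurd (mem_univ j) hh
    rw [hg, zero_mul, coeff_zero, Finsupp.zero_apply] at h1
    exact mul_ne_zero hj0 (hM1 j) h1.symm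
  have hfin : Module.Finite R (AddMonoidAlgebra R (Grp t)) :=
    Module.Finite.of_basis (AddMonoidAlgebra.basis (Grp t) R)
  have hrank : Module.finrank R (AddMonoidAlgebra R (Grp t)) = 2 ^ (t + 1) := by
    rw [Module.finrank_eq_card_basis (AddMonoidAlgebra.basis (Grp t) R), Fintype.card_fun,
      ZMod.card, Fintype.card_fin]
  have := hlin.fintype_card_le_finrank
  rwa [Fintype.card_fin, hrank] at this

/-- For every `t` and every alphabet `X` with at least two letters, the largest length of a skew
`t`-family is exactly `2 ^ (t + 1)`. -/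
theorem result {X : Type*} [DecidableEq X] [Nontrivial X] (t : ℕ) :
    IsGreatest {m : ℕ | ∃ n : ℕ, t + 1 ≤ n ∧ ∃ a b : Fin m → Fin n → X, IsSkewFamily t a b}
      (2 ^ (t + 1)) := by
  classical
  constructor
  · obtain ⟨p, q, hpq⟩ := exists_pair_ne X
    have hcard : Fintype.card (Fin (t + 1) → Bool) = 2 ^ (t + 1) := by simp
    let e : Fin (2 ^ (t + 1)) ≃ (Fin (t + 1) → Bool) := (Fintype.equivFinOfCardEq hcard).symm
    let a : Fin (2 ^ (t + 1)) → Fin (t + 1) → X := fun i k => if e i k then p else q
    let b : Fin (2 ^ (t + 1)) → Fin (t + 1) → X := fun i k => if e i k then q else p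
    refine ⟨t + 1, le_rfl, a, b, ?_, ?_⟩
    · intro i
      have : Finset.univ.filter (fun k => a i k ≠ b i k) = Finset.univ := by
        apply Finset.filter_true_of_mem
        intro k _
        simp only [a, b]
        split_ifs
        · exact hpq
        · exact hpq.symm
      have h2 : hammingDist (a i) (b i) = (Finset.univ.filter (fun k => a i k ≠ b i k)).card := rfl
      rw [h2, this]
      simp
    · intro i j hij
      have hne : e i ≠ e j := fun h => hij.ne (e.injective h)
      obtain ⟨k, hk⟩ := Function.ne_iff.1 hne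
      have h2 : hammingDist (a i) (b j) = (Finset.univ.filter (fun k => a i k ≠ b j k)).card := rfl
      rw [h2]
      have h3 : Finset.univ.filter (fun k => a i k ≠ b j k) ⊆ Finset.univ.erase k := by
        intro l hl
        rw [Finset.mem_erase]
        refine ⟨?_, mem_univ _⟩
        rintro rfl
        apply (Finset.mem_filter.1 hl).2
        simp only [a, b]
        cases h4 : e i l <;> cases h5 : e j l <;> simp_all
      refine (Finset.card_le_card h3).trans ?_
      rw [Finset.card_erase_of_mem (mem_univ k)]
      simp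
  · rintro m ⟨n, -, a, b, h⟩
    exact upper h

end Pool.Agent.Results.MP_41e757_co.ExactValue
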